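import Pool.Agent.H96.HT2.Kpa
import Pool.Agent.H71.HT2.Bse
import Pool.Agent.H71.HT2.Abs
import Pool.Agent.H77.WD.Tyf
import Pool.Agent.H77.AQ.Bas
import Pool.Agent.H51.AC2.Trn
import Pool.Agent.H51.AC2.Fin

/-!
# H96-HT2-KPB: the uniform upper bound for central products, `p = 2` (MP_b39724_nt, think 1829, (B); proof of KAP)

`kpb_one`: for one local type `α` of `pr ∘ φ` at `S0`; `kap'`: the sum over the finitely many `α`.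
-/

set_option autoImplicit false

open scoped NumberField
open IsDedekindDomain H38.ML
open scoped Classical

noncomputable section

namespace H96.HT2

open H63.MA H38.BB H38.BG H57.PC H57.BRA H63.BU H77.PC3 H57.CC H38.AS H77.S0T H77.FLD H77.PLF
  H51.PF H51.F3 H71.HT2 H48.MF H77.WD H24.RK

/-- the second coordinate of `Z.E ∘ φ` -/
def bt {p : ℕ} {G P N₁ Γ : Type} [Group G] [Group P] [Group N₁] [Group Γ] (Z : HZ p G P N₁)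
    (φ : Γ →* G) : Γ →* N₁ :=
  MonoidHom.mk' (fun σ => (Z.E (φ σ)).r.2) (by
    intro σ τ
    have h1 : Z.E (φ (σ * τ)) = Z.E (φ σ) * Z.E (φ τ) := by rw [map_mul, map_mul]
    have h2 : (Z.E (φ (σ * τ))).r = (Z.E (φ σ)).r * (Z.E (φ τ)).r := by rw [h1]; rfl
    rw [h2]
    rfl)

theorem bt_apply {p : ℕ} {G P N₁ Γ : Type} [Group G] [Group P] [Group N₁] [Group Γ]
    (Z : HZ p G P N₁) (φ : Γ →* G) (σ : Γ) : bt Z φ σ = (Z.E (φ σ)).r.2 := rfl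

theorem bt_eq {p N : ℕ} {G P H N₁ Γ : Type} [Group G] [Group P] [Group H] [Group N₁] [Group Γ]
    (Q : HQ p N G H) (Z : HZ p G P N₁) (h2 : ∀ t, Q.ph t = 1 → (Z.E t).r.2 = 1)
    (φ ψ : Γ →* G) (h : Q.ph.comp φ = Q.ph.comp ψ) (σ : Γ) : (Z.E (φ σ)).r.2 = bt Z ψ σ := by
  have h3 : Q.ph (φ σ) = Q.ph (ψ σ) := DFunLike.congr_fun h σ
  have h4 : Q.ph (φ σ * (ψ σ)⁻¹) = 1 := by rw [map_mul, map_inv, h3, mul_inv_cancel]
  have h5 := h2 _ h4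
  have h6 : (Z.E (φ σ * (ψ σ)⁻¹)).r.2 = (Z.E (φ σ)).r.2 * ((Z.E (ψ σ)).r.2)⁻¹ := by
    rw [map_mul, map_inv]
    rfl
  rw [h6] at h5
  exact mul_inv_eq_one.1 h5

theorem bt_ft {K : Type} [Field K] {Ω : Type} [Field Ω] [Algebra K Ω] {p : ℕ}
    {G P N₁ : Type} [Group G] [Group P] [Group N₁] (Z : HZ p G P N₁)
    (φ : Gal(Ω/K) →* G) (hφ : H38.ML.FT φ) : H38.ML.FT (bt Z φ) := by
  obtain ⟨E, hE, h⟩ := hφ
  refine ⟨E, hE, fun u hu => ?_⟩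
  have h1 : φ u = 1 := MonoidHom.mem_ker.1 (h hu)
  rw [MonoidHom.mem_ker, bt_apply, h1, map_one]
  rfl

/-- one local type -/
theorem kpb_one {N k : ℕ} {G P H N₁ : Type} [Group G] [Finite G] [Group P] [Finite P] [Group H]
    [Group N₁] [Finite N₁] (Q : HU 2 N G P H)
    (Z : HZ 2 G P N₁) (h1 : ∀ g, (Z.E g).r.1 = Q.pr g)
    (h2 : ∀ t, Q.ph t = 1 → (Z.E t).r.2 = 1) (h3 : ∀ t, Q.ph t = 1 → Z.E t = 1 → t = 1)
    (V : Subgroup N₁) (hVn : V.Normal)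
    (hV : ∀ x ∈ V, x ^ (2 ^ k) = 1) (hPk : ∀ x : P, x ^ (2 ^ k) = 1) (hVi : ¬ 2 ∣ V.index)
    {K : IntermediateField ℚ QBar} [NumberField K] {ζ : K} (hζ : IsPrimitiveRoot ζ 2)
    (D : RD K 2 ζ) (L : LDs D.toRD0 QBar) (Q' : DP K QBar) (C₁ C₂ η : ℝ) (hη : 0 < η)
    (hC₂ : 0 < C₂)
    (hb : ∀ (R : Type) [Group R] [Finite R] (e : R → R → ZMod 2) (_ : Coc 2 e) (V : Subgroup R)
        [V.Normal] (_ : ∀ x ∈ V, x ^ (2 ^ k) = 1) (_ : ¬ 2 ∣ V.index) (ρ : Gal(QBar/K) →* R)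
        (_ : H38.ML.FT ρ) (E : Finset (Pl K))
        (_ : ∀ v, v ∉ D.S0 → v ∉ E → ∀ τ ∈ inr L v, ρ τ = 1)
        (_ : ∀ v ∈ D.S0, Kl (pb e ρ) (dec (K := K) (Q'.P v) : Set Gal(QBar/K))),
        ∃ (a b : Kˣ) (F : Finset (Pl K)) (m : Gal(QBar/K) → ZMod 2), Lev m ∧
          (∀ σ τ, m (σ * τ) = m σ + m τ + (pb e ρ σ τ + cu 2 ζ a b σ τ)) ∧ nr F ≤ C₁ * nr E ∧
          ∀ v, v ∉ D.S0 → v ∉ E → v ∉ F → ∀ τ ∈ inr L v,
            kk 2 ζ a τ = 0 ∧ kk 2 ζ b τ = 0 ∧ m τ = 0)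
    (hab : ∀ (E : Finset (Pl K)) (Y : ℝ), 1 ≤ Y → ∀ Rs : Finset (Gal(QBar/K) →* KH Z.hP),
      (∀ ψ ∈ Rs, ψ ∈ PQ L (ck Q Z h1 h2 h3) (kq Z.hP) E Y) →
        (Rs.card : ℝ) ≤ C₂ * nr E ^ (η / 2) * Y * (1 + Real.log Y) ^ (N - 1))
    (α : Gal(QBar/K) →* P) (hα : H38.ML.FT α) (Eα : Finset (Pl K))
    (hEα : ∀ v, v ∈ Eα ↔ Rm L α v) (E : Finset (Pl K)) (Y : ℝ) (hY : 1 ≤ Y)
    (β : Gal(QBar/K) →* H) (Rs : Finset (Gal(QBar/K) →* G))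
    (hRs : ∀ φ ∈ Rs, φ ∈ PU L Q.cl E Y ∧ Q.ph.comp φ = β)
    (hRα : ∀ φ ∈ Rs, Teq D.S0 Q' (Q.pr.comp φ) α) :
    (Rs.card : ℝ) ≤ C₂ * (C₁ ^ (η / 2) * (nr Eα ^ η * nr E ^ η)) * Y *
      (1 + Real.log Y) ^ (N - 1) := by
  have hp : Nat.Prime 2 := Nat.prime_two
  have hp0 : NeZero 2 := ⟨two_ne_zero⟩
  have hE1 : ∀ B : Finset (Pl K), 1 ≤ nr B := one_le_nr
  have hlog : 0 ≤ Real.log Y := Real.log_nonneg hY
  rcases Finset.eq_empty_or_nonempty Rs with h0 | ⟨φ₀, hφ₀⟩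
  · rw [h0, Finset.card_empty, Nat.cast_zero]
    rcases lt_or_ge C₁ 0 with hneg | hpos
    · -- impossible: `1 ≤ nr F ≤ C₁ nr E`
      exfalso
      have : (⊤ : Subgroup (Multiplicative (ZMod 1))).Normal := inferInstance
      obtain ⟨a, b, F, m, -, -, hF, -⟩ := hb (Multiplicative (ZMod 1)) (fun _ _ => 0)
        ⟨fun _ => rfl, fun _ => rfl, fun _ _ _ => rfl⟩ ⊤
        (fun x _ => Subsingleton.elim _ _) (by rw [Subgroup.index_top]; decide) 1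
        ⟨⊥, inferInstance, fun σ _ => by rw [MonoidHom.mem_ker, MonoidHom.one_apply]⟩ ∅
        (fun v _ _ τ _ => rfl) (fun v _ => ⟨0, ⟨⊥, inferInstance, fun _ _ _ => rfl⟩,
          fun σ _ τ _ => by simp [pb]⟩)
      have h4 := hE1 F
      have h5 := hE1 (∅ : Finset (Pl K))
      nlinarith
    · have h4 := Real.rpow_nonneg hpos (η / 2)
      have h5 : 0 ≤ nr Eα := zero_le_one.trans (hE1 Eα)
      have h6 : 0 ≤ nr E := zero_le_one.trans (hE1 E)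
      positivity
  obtain ⟨hPU₀, hph₀⟩ := hRs φ₀ hφ₀
  have hT₀ := hRα φ₀ hφ₀
  obtain ⟨hft₀, hsur₀, hty₀, -⟩ := id hPU₀
  -- the class
  have hρft : H38.ML.FT (α.prod (bt Z φ₀)) := gtame_ft_prod _ _ hα (bt_ft Z φ₀ hft₀)
  have hVn' : ((⊤ : Subgroup P).prod V).Normal := inferInstance
  obtain ⟨a, b, F, m, hml, hm, hF, hur⟩ := hb (P × N₁) (sm Z.eP Z.eN) (sm_coc Z.hP Z.hN)
    ((⊤ : Subgroup P).prod V) (fun x hx => Prod.ext (hPk _) (hV _ (Subgroup.mem_prod.1 hx).2))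
    (by
      rw [Subgroup.index_prod, Subgroup.index_top, one_mul]
      exact hVi) (α.prod (bt Z φ₀)) hρft (E ∪ Eα)
    (by
      intro v hv hvE τ hτ
      rw [Finset.mem_union, not_or] at hvE
      have g1 : α τ = 1 := by
        by_contra hne
        exact hvE.2 ((hEα v).2 ⟨hv, τ, hτ, hne⟩)
      have g2 : bt Z φ₀ τ = 1 :=
        h2 _ (ph_inr hp hζ Q.toHQ L φ₀ hft₀ hv (hty₀ v hv hvE.1) τ hτ)
      exact Prod.ext g1 g2)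
    (by
      intro v hv
      refine ⟨fun σ => (Z.E (φ₀ σ)).z, ?_, ?_⟩
      · obtain ⟨E₁, hE₁, h4⟩ := hft₀
        refine ⟨E₁, hE₁, fun σ u hu => ?_⟩
        have h5 : φ₀ u = 1 := MonoidHom.mem_ker.1 (h4 hu)
        show (Z.E (φ₀ (σ * u))).z = (Z.E (φ₀ σ)).z
        rw [map_mul, h5, mul_one]
      · intro σ hσ τ hτ
        have e1 : (Z.E (φ₀ σ)).r.1 = α σ := (h1 _).trans (hT₀ v hv σ hσ)
        have e2 : (Z.E (φ₀ τ)).r.1 = α τ := (h1 _).trans (hT₀ v hv τ hτ)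
        have e3 : Z.E (φ₀ (σ * τ)) = Z.E (φ₀ σ) * Z.E (φ₀ τ) := by rw [map_mul, map_mul]
        have e4 : (Z.E (φ₀ (σ * τ))).z = (Z.E (φ₀ σ)).z + (Z.E (φ₀ τ)).z +
            sm Z.eP Z.eN (Z.E (φ₀ σ)).r (Z.E (φ₀ τ)).r := by rw [e3]; rfl
        show (Z.E (φ₀ (σ * τ))).z = (Z.E (φ₀ σ)).z + (Z.E (φ₀ τ)).z +
          sm Z.eP Z.eN (α σ, bt Z φ₀ σ) (α τ, bt Z φ₀ τ)
        rw [e4]
        congr 1
        have e5 : (Z.E (φ₀ σ)).r = (α σ, bt Z φ₀ σ) := Prod.ext e1 rfl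
        have e6 : (Z.E (φ₀ τ)).r = (α τ, bt Z φ₀ τ) := Prod.ext e2 rfl
        rw [e5, e6])
  have hm' : ∀ σ τ, m (σ * τ) = m σ + m τ + (sm Z.eP Z.eN (α σ, bt Z φ₀ σ) (α τ, bt Z φ₀ τ) +
      Multiplicative.toAdd (kc 2 ζ QBar a σ) * Multiplicative.toAdd (kc 2 ζ QBar b τ)) := hm
  have hβ : ∀ φ ∈ Rs, ∀ σ, (Z.E (φ σ)).r.2 = bt Z φ₀ σ := fun φ hφ σ =>
    bt_eq Q.toHQ Z h2 φ φ₀ ((hRs φ hφ).2.trans hph₀.symm) σ
  obtain ⟨g, hg⟩ : ∃ g : (Gal(QBar/K) →* G) → (Gal(QBar/K) →* KH Z.hP),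
      ∀ φ (h : ∀ σ, (Z.E (φ σ)).r.2 = bt Z φ₀ σ), g φ =
        kpa Z α (fun σ => bt Z φ₀ σ) (kc 2 ζ QBar a) (kc 2 ζ QBar b) m hm' φ h :=
    ⟨fun φ => if h : ∀ σ, (Z.E (φ σ)).r.2 = bt Z φ₀ σ then
      kpa Z α (fun σ => bt Z φ₀ σ) (kc 2 ζ QBar a) (kc 2 ζ QBar b) m hm' φ h else 1,
      fun φ h => dif_pos h⟩
  have hinj : Set.InjOn g (Rs : Set (Gal(QBar/K) →* G)) := by
    intro φ hφ ψ hψ h
    rw [hg φ (hβ φ hφ), hg ψ (hβ ψ hψ)] at h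
    exact kpa_inj Q Z h3 α _ _ _ m hm' φ ψ (hβ φ hφ) (hβ ψ hψ)
      ((hRs φ hφ).2.trans (hRs ψ hψ).2.symm) h
  have hcard : (Rs.image g).card = Rs.card := Finset.card_image_of_injOn hinj
  have hmem : ∀ ψ ∈ Rs.image g, ψ ∈ PQ L (ck Q Z h1 h2 h3) (kq Z.hP) (E ∪ Eα ∪ F) Y := by
    intro ψ hψ
    obtain ⟨φ, hφ, rfl⟩ := Finset.mem_image.1 hψ
    rw [hg φ (hβ φ hφ)]
    refine kpa_pq hp hζ Q Z h1 h2 h3 L α _ _ _ m hm' φ (hβ φ hφ) hα (kc_is hp hζ a).1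
      (kc_is hp hζ b).1 hml E _ (Finset.subset_union_left.trans Finset.subset_union_left) ?_ Y
      (hRs φ hφ).1
    intro v hv hvE τ hτ
    rw [Finset.mem_union, not_or] at hvE
    obtain ⟨g1, g2, g3⟩ := hur v hv hvE.1 hvE.2 τ hτ
    have hvE' := hvE.1
    rw [Finset.mem_union, not_or] at hvE'
    refine ⟨?_, Multiplicative.toAdd.injective g1, Multiplicative.toAdd.injective g2, g3⟩
    by_contra hne
    exact hvE'.2 ((hEα v).2 ⟨hv, τ, hτ, hne⟩)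
  have hfin := hab (E ∪ Eα ∪ F) Y hY (Rs.image g) hmem
  rw [hcard] at hfin
  have hn1 : nr (E ∪ Eα ∪ F) ≤ C₁ * (nr Eα * nr E) ^ (2 : ℕ) := by
    have e1 : nr (E ∪ Eα ∪ F) ≤ nr (E ∪ Eα) * nr F := H77.AQ.nr_un _ _
    have e2 : nr (E ∪ Eα) ≤ nr E * nr Eα := H77.AQ.nr_un _ _
    have e3 := hE1 (E ∪ Eα)
    have e4 := hE1 F
    have e5 := hE1 E
    have e6 := hE1 Eα
    have e7 : 0 ≤ C₁ := by
      by_contra hneg
      push Not at hneg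
      nlinarith
    calc nr (E ∪ Eα ∪ F) ≤ nr (E ∪ Eα) * nr F := e1
      _ ≤ nr (E ∪ Eα) * (C₁ * nr (E ∪ Eα)) := by
          apply mul_le_mul_of_nonneg_left hF (by linarith)
      _ = C₁ * (nr (E ∪ Eα) * nr (E ∪ Eα)) := by ring
      _ ≤ C₁ * ((nr E * nr Eα) * (nr E * nr Eα)) := by
          apply mul_le_mul_of_nonneg_left _ e7
          apply mul_le_mul e2 e2 (by linarith) (by positivity)
      _ = C₁ * (nr Eα * nr E) ^ (2 : ℕ) := by ring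
  have hC₁ : 0 ≤ C₁ := by
    by_contra hneg
    push Not at hneg
    have e4 := hE1 F
    have e3 := hE1 (E ∪ Eα)
    nlinarith
  have hn2 : nr (E ∪ Eα ∪ F) ^ (η / 2) ≤ C₁ ^ (η / 2) * (nr Eα ^ η * nr E ^ η) := by
    have e3 := hE1 (E ∪ Eα ∪ F)
    have e5 := hE1 E
    have e6 := hE1 Eα
    calc nr (E ∪ Eα ∪ F) ^ (η / 2) ≤ (C₁ * (nr Eα * nr E) ^ (2 : ℕ)) ^ (η / 2) :=
          Real.rpow_le_rpow (by linarith) hn1 (by positivity)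
      _ = C₁ ^ (η / 2) * (nr Eα ^ η * nr E ^ η) := by
          rw [Real.mul_rpow hC₁ (by positivity), ← Real.rpow_natCast, ← Real.rpow_mul
            (by positivity)]
          have e7 : ((2 : ℕ) : ℝ) * (η / 2) = η := by push_cast; ring
          rw [e7, Real.mul_rpow (by positivity) (by positivity)]
  have hl1 : 0 ≤ (1 + Real.log Y) ^ (N - 1) := by positivity
  calc (Rs.card : ℝ) ≤ C₂ * nr (E ∪ Eα ∪ F) ^ (η / 2) * Y * (1 + Real.log Y) ^ (N - 1) := hfin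
    _ ≤ C₂ * (C₁ ^ (η / 2) * (nr Eα ^ η * nr E ^ η)) * Y * (1 + Real.log Y) ^ (N - 1) := by
        gcongr

/-- the uniform upper bound for central products, `p = 2` -/
theorem kap' {N M k : ℕ} {G P H N₁ : Type} [Group G] [Finite G] [Group P] [Finite P] [Group H]
    [Group N₁] [Finite N₁] (hN : 1 ≤ N) (Q : HU 2 N G P H) (hP : IsPGroup 2 P)
    (Z : HZ 2 G P N₁) (h1 : ∀ g, (Z.E g).r.1 = Q.pr g)
    (h2 : ∀ t, Q.ph t = 1 → (Z.E t).r.2 = 1) (h3 : ∀ t, Q.ph t = 1 → Z.E t = 1 → t = 1)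
    (V : Subgroup N₁) (hVn : V.Normal)
    (hV : ∀ x ∈ V, x ^ (2 ^ k) = 1) (hPk : ∀ x : P, x ^ (2 ^ k) = 1) (hVi : ¬ 2 ∣ V.index)
    (hk : 0 < k) (hM : k + 1 ≤ M) (hUs : PUs 2 M (KH Z.hP)) : QUb 2 M Q.toHQ := by
  intro K _
  obtain ⟨S₁, hS₁⟩ := bse K
  refine ⟨S₁, ?_⟩
  intro ζ hζ z hz D hS L η hη
  have hp : Nat.Prime 2 := Nat.prime_two
  have hp0 : NeZero 2 := ⟨two_ne_zero⟩
  have hMO : MOne 2 K := mone_of hp (by omega) hz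
  obtain ⟨Q', -⟩ := H51.AC2.dp_of L
  have hZn : Zn 2 (k + 1) K := H51.AC2.prm_pow hp hz hM
  obtain ⟨C₁, hC₁, hb⟩ := hS₁ ζ hζ hMO QBar D.toRD0 hS L Q' k hk hZn
  obtain ⟨Rα, hRft, hRt⟩ := ty_fin hp hMO hζ D.toRD0 L Q' (Nat.card P) P rfl hP
  have hfinKH : Finite (KH Z.hP) := kh_fin Z.hP
  obtain ⟨C₂, hC₂, hab⟩ := abs1 hp hζ hz (kh_pg hp hP Z.hP) hN (ck Q Z h1 h2 h3) (kq Z.hP)
    (ck_cen Q Z h1 h2 h3) hUs D L (η / 2) (by positivity)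
  obtain ⟨Eα, hEα⟩ : ∃ Eα : (Gal(QBar/K) →* P) → Finset (Pl K),
      ∀ α ∈ Rα, ∀ v, v ∈ Eα α ↔ Rm L α v :=
    ⟨fun α => if h : H38.ML.FT α then (uinr_fin L α h).toFinset else ∅, fun α hα v => by
      beta_reduce
      rw [dif_pos (hRft α hα), Set.Finite.mem_toFinset]
      rfl⟩
  have hE1 : ∀ B : Finset (Pl K), 1 ≤ nr B := one_le_nr
  refine ⟨C₂ * (C₁ ^ (η / 2) * (1 + ∑ α ∈ Rα, nr (Eα α) ^ η)), ?_, ?_⟩
  · have e1 : 0 ≤ ∑ α ∈ Rα, nr (Eα α) ^ η := Finset.sum_nonneg fun α _ =>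
      Real.rpow_nonneg (zero_le_one.trans (hE1 _)) _
    positivity
  intro E Y β hY Rs hRs
  have hlog : 0 ≤ Real.log Y := Real.log_nonneg hY
  have hone : ∀ α ∈ Rα, ((Rs.filter fun φ => Teq D.S0 Q' (Q.pr.comp φ) α).card : ℝ) ≤
      C₂ * (C₁ ^ (η / 2) * (nr (Eα α) ^ η * nr E ^ η)) * Y * (1 + Real.log Y) ^ (N - 1) := by
    intro α hα
    refine kpb_one Q Z h1 h2 h3 V hVn hV hPk hVi hζ D L Q' C₁ C₂ η hη hC₂ hb hab α (hRft α hα)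
      (Eα α) (hEα α hα) E Y hY β _ (fun φ hφ => hRs φ (Finset.mem_filter.1 hφ).1)
      (fun φ hφ => (Finset.mem_filter.1 hφ).2)
  have hcov : Rs ⊆ Rα.biUnion fun α => Rs.filter fun φ => Teq D.S0 Q' (Q.pr.comp φ) α := by
    intro φ hφ
    obtain ⟨α, hα, hT⟩ := hRt (Q.pr.comp φ) (ft_comp _ (hRs φ hφ).1.1)
    exact Finset.mem_biUnion.2 ⟨α, hα, Finset.mem_filter.2 ⟨hφ, hT⟩⟩
  have hl1 : 0 ≤ (1 + Real.log Y) ^ (N - 1) := by positivity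
  have hn0 : 0 ≤ nr E ^ η := Real.rpow_nonneg (zero_le_one.trans (hE1 _)) _
  calc (Rs.card : ℝ)
      ≤ ((Rα.biUnion fun α => Rs.filter fun φ => Teq D.S0 Q' (Q.pr.comp φ) α).card : ℝ) := by
        exact_mod_cast Finset.card_le_card hcov
    _ ≤ ∑ α ∈ Rα, ((Rs.filter fun φ => Teq D.S0 Q' (Q.pr.comp φ) α).card : ℝ) := by
        exact_mod_cast Finset.card_biUnion_le
    _ ≤ ∑ α ∈ Rα, C₂ * (C₁ ^ (η / 2) * (nr (Eα α) ^ η * nr E ^ η)) * Y *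
        (1 + Real.log Y) ^ (N - 1) := Finset.sum_le_sum hone
    _ = C₂ * (C₁ ^ (η / 2) * ∑ α ∈ Rα, nr (Eα α) ^ η) * nr E ^ η * Y *
        (1 + Real.log Y) ^ (N - 1) := by
        rw [Finset.mul_sum, Finset.mul_sum, Finset.sum_mul, Finset.sum_mul, Finset.sum_mul]
        refine Finset.sum_congr rfl fun α _ => ?_
        ring
    _ ≤ C₂ * (C₁ ^ (η / 2) * (1 + ∑ α ∈ Rα, nr (Eα α) ^ η)) * nr E ^ η * Y *
        (1 + Real.log Y) ^ (N - 1) := by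
        have e1 : C₂ * (C₁ ^ (η / 2) * ∑ α ∈ Rα, nr (Eα α) ^ η) ≤
            C₂ * (C₁ ^ (η / 2) * (1 + ∑ α ∈ Rα, nr (Eα α) ^ η)) := by
          apply mul_le_mul_of_nonneg_left _ hC₂.le
          apply mul_le_mul_of_nonneg_left _ (Real.rpow_nonneg (by linarith) _)
          linarith
        gcongr

end H96.HT2
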