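import Pool.Agent.H71.HT2.Kga
import Pool.Agent.H48.MF.Ing
import Pool.Agent.H71.HT2.Psi

/-!
# H96-HT2-KPA: the homomorphism to `KH` of a homomorphism to `G` (MP_b39724_nt, think 1829, (B), part of KAP)

`Z : HZ p G P N₁` (`Z.E` with first coordinate `pr`), `m` a cochain with coboundary the pull back of `eP + eN` under `(α, β)` plus the product of two characters.
`kpa φ σ = ((pr (φ σ), α σ, χ σ, χ' σ), (Z.E (φ σ)).z - m σ)` is a homomorphism to `KH` if the second coordinate of `Z.E ∘ φ` is `β`; it is of finite type (`kpa_ft`), injective in `φ` for given `ph ∘ φ` (`kpa_inj`), and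
in `PQ` if `φ` is in `PU` (`kpa_pq`). `ph_inr`: `ph (φ τ) = 1` on the inertia groups of the typed primes.
-/

set_option autoImplicit false

open scoped NumberField
open IsDedekindDomain H38.ML
open scoped Classical

noncomputable section

namespace H96.HT2

open H63.MA H38.BB H38.BG H57.PC H57.BRA H63.BU H77.PC3 H57.CC H38.AS H77.S0T H77.FLD H77.PLF
  H51.PF H51.F3 H71.HT2 H48.MF

section grp

variable {p : ℕ} {G P N₁ : Type} [Group G] [Group P] [Group N₁] {Γ : Type} [Group Γ]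

/-- the homomorphism to `KH` -/
def kpa (Z : HZ p G P N₁) (α : Γ →* P) (β : Γ → N₁) (χ χ' : Γ →* Multiplicative (ZMod p))
    (m : Γ → ZMod p) (hm : ∀ σ τ, m (σ * τ) = m σ + m τ + (sm Z.eP Z.eN (α σ, β σ) (α τ, β τ) +
      Multiplicative.toAdd (χ σ) * Multiplicative.toAdd (χ' τ)))
    (φ : Γ →* G) (hφ : ∀ σ, (Z.E (φ σ)).r.2 = β σ) : Γ →* KH Z.hP :=
  MonoidHom.mk' (fun σ => ⟨((Z.E (φ σ)).r.1, α σ, χ σ, χ' σ), (Z.E (φ σ)).z - m σ⟩) (by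
    intro σ τ
    have h1 : Z.E (φ (σ * τ)) = Z.E (φ σ) * Z.E (φ τ) := by rw [map_mul, map_mul]
    have h2 : (Z.E (φ (σ * τ))).r = (Z.E (φ σ)).r * (Z.E (φ τ)).r := by rw [h1]; rfl
    have h3 : (Z.E (φ (σ * τ))).z = (Z.E (φ σ)).z + (Z.E (φ τ)).z +
        sm Z.eP Z.eN (Z.E (φ σ)).r (Z.E (φ τ)).r := by rw [h1]; rfl
    have h4 : sm Z.eP Z.eN (Z.E (φ σ)).r (Z.E (φ τ)).r =
        Z.eP (Z.E (φ σ)).r.1 (Z.E (φ τ)).r.1 + Z.eN (β σ) (β τ) := by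
      show Z.eP (Z.E (φ σ)).r.1 (Z.E (φ τ)).r.1 + Z.eN (Z.E (φ σ)).r.2 (Z.E (φ τ)).r.2 = _
      rw [hφ, hφ]
    have h5 : sm Z.eP Z.eN (α σ, β σ) (α τ, β τ) = Z.eP (α σ) (α τ) + Z.eN (β σ) (β τ) := rfl
    rw [xt_mul]
    ext1
    · show ((Z.E (φ (σ * τ))).r.1, α (σ * τ), χ (σ * τ), χ' (σ * τ)) =
        ((Z.E (φ σ)).r.1, α σ, χ σ, χ' σ) * ((Z.E (φ τ)).r.1, α τ, χ τ, χ' τ)
      rw [h2, map_mul, map_mul, map_mul]
      rfl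
    · show (Z.E (φ (σ * τ))).z - m (σ * τ) = (Z.E (φ σ)).z - m σ + ((Z.E (φ τ)).z - m τ) +
        (Z.eP (Z.E (φ σ)).r.1 (Z.E (φ τ)).r.1 - Z.eP (α σ) (α τ) -
          Multiplicative.toAdd (χ σ) * Multiplicative.toAdd (χ' τ))
      rw [h3, h4, hm, h5]
      ring)

theorem kpa_r (Z : HZ p G P N₁) (α : Γ →* P) (β : Γ → N₁) (χ χ' : Γ →* Multiplicative (ZMod p))
    (m : Γ → ZMod p) (hm : ∀ σ τ, m (σ * τ) = m σ + m τ + (sm Z.eP Z.eN (α σ, β σ) (α τ, β τ) +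
      Multiplicative.toAdd (χ σ) * Multiplicative.toAdd (χ' τ)))
    (φ : Γ →* G) (hφ : ∀ σ, (Z.E (φ σ)).r.2 = β σ) (σ : Γ) :
    kpa Z α β χ χ' m hm φ hφ σ = ⟨((Z.E (φ σ)).r.1, α σ, χ σ, χ' σ), (Z.E (φ σ)).z - m σ⟩ := rfl

/-- injectivity for given `ph ∘ φ` -/
theorem kpa_inj {N : ℕ} {H : Type} [Group H] (Q : HU p N G P H) (Z : HZ p G P N₁)
    (h3 : ∀ t, Q.ph t = 1 → Z.E t = 1 → t = 1) (α : Γ →* P) (β : Γ → N₁)
    (χ χ' : Γ →* Multiplicative (ZMod p))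
    (m : Γ → ZMod p) (hm : ∀ σ τ, m (σ * τ) = m σ + m τ + (sm Z.eP Z.eN (α σ, β σ) (α τ, β τ) +
      Multiplicative.toAdd (χ σ) * Multiplicative.toAdd (χ' τ)))
    (φ ψ : Γ →* G) (hφ : ∀ σ, (Z.E (φ σ)).r.2 = β σ) (hψ : ∀ σ, (Z.E (ψ σ)).r.2 = β σ)
    (hp : Q.ph.comp φ = Q.ph.comp ψ)
    (he : kpa Z α β χ χ' m hm φ hφ = kpa Z α β χ χ' m hm ψ hψ) : φ = ψ := by
  ext σ
  have h1 := DFunLike.congr_fun he σ
  rw [kpa_r, kpa_r] at h1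
  have h4 : (Z.E (φ σ)).r.1 = (Z.E (ψ σ)).r.1 := congrArg (fun x => x.r.1) h1
  have h5 : (Z.E (φ σ)).z - m σ = (Z.E (ψ σ)).z - m σ := congrArg (fun x => x.z) h1
  have h6 : Z.E (φ σ) = Z.E (ψ σ) := by
    ext1
    · exact Prod.ext h4 ((hφ σ).trans (hψ σ).symm)
    · exact sub_left_injective h5
  have h7 : Q.ph (φ σ) = Q.ph (ψ σ) := DFunLike.congr_fun hp σ
  have h8 : φ σ * (ψ σ)⁻¹ = 1 := by
    apply h3
    · rw [map_mul, map_inv, h7, mul_inv_cancel]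
    · rw [map_mul, map_inv, h6, mul_inv_cancel]
  exact mul_inv_eq_one.1 h8

end grp

section loc

variable {K : Type} [Field K] [NumberField K] {Ω : Type} [Field Ω] [Algebra K Ω]
  {p N : ℕ} {ζ : K} {G P H N₁ : Type} [Group G] [Group P] [Group H] [Group N₁]

theorem coc_one {Z : HZ p G P N₁} {α : Gal(Ω/K) →* P} {β : Gal(Ω/K) → N₁} (hβ : β 1 = 1)
    {χ χ' : Gal(Ω/K) →* Multiplicative (ZMod p)}
    {m : Gal(Ω/K) → ZMod p} (hm : ∀ σ τ, m (σ * τ) = m σ + m τ + (sm Z.eP Z.eN (α σ, β σ)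
      (α τ, β τ) + Multiplicative.toAdd (χ σ) * Multiplicative.toAdd (χ' τ))) : m 1 = 0 := by
  have h1 := hm 1 1
  have h2 : sm Z.eP Z.eN (α 1, β 1) (α 1, β 1) = 0 := by
    show Z.eP (α 1) (α 1) + Z.eN (β 1) (β 1) = 0
    rw [map_one, hβ, Z.hP.l1, Z.hN.l1, add_zero]
  rw [h2, map_one, toAdd_one, zero_mul, add_zero, add_zero, mul_one] at h1
  linear_combination -h1

theorem kpa_ft (Z : HZ p G P N₁) (α : Gal(Ω/K) →* P) (β : Gal(Ω/K) → N₁)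
    (χ χ' : Gal(Ω/K) →* Multiplicative (ZMod p))
    (m : Gal(Ω/K) → ZMod p) (hm : ∀ σ τ, m (σ * τ) = m σ + m τ + (sm Z.eP Z.eN (α σ, β σ)
      (α τ, β τ) + Multiplicative.toAdd (χ σ) * Multiplicative.toAdd (χ' τ)))
    (φ : Gal(Ω/K) →* G) (hφ : ∀ σ, (Z.E (φ σ)).r.2 = β σ) (hα : H38.ML.FT α)
    (hχ : H38.ML.FT χ) (hχ' : H38.ML.FT χ') (hl : Lev m) (hf : H38.ML.FT φ) :
    H38.ML.FT (kpa Z α β χ χ' m hm φ hφ) := by
  have hβ : β 1 = 1 := by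
    rw [← hφ 1, map_one, map_one]
    rfl
  have hm1 := coc_one hβ hm
  obtain ⟨E₁, hE₁, h1⟩ := hα
  obtain ⟨E₂, hE₂, h2⟩ := hχ
  obtain ⟨E₃, hE₃, h3⟩ := hχ'
  obtain ⟨E₄, hE₄, h4⟩ := hl
  obtain ⟨E₅, hE₅, h5⟩ := hf
  refine ⟨E₁ ⊔ (E₂ ⊔ (E₃ ⊔ (E₄ ⊔ E₅))), inferInstance, fun u hu => ?_⟩
  have hu1 : u ∈ E₁.fixingSubgroup := IntermediateField.fixingSubgroup_antitone le_sup_left hu
  have hu' := IntermediateField.fixingSubgroup_antitone le_sup_right hu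
  have hu2 : u ∈ E₂.fixingSubgroup := IntermediateField.fixingSubgroup_antitone le_sup_left hu'
  have hu'' := IntermediateField.fixingSubgroup_antitone le_sup_right hu'
  have hu3 : u ∈ E₃.fixingSubgroup := IntermediateField.fixingSubgroup_antitone le_sup_left hu''
  have hu''' := IntermediateField.fixingSubgroup_antitone le_sup_right hu''
  have hu4 : u ∈ E₄.fixingSubgroup :=
    IntermediateField.fixingSubgroup_antitone le_sup_left hu'''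
  have hu5 : u ∈ E₅.fixingSubgroup :=
    IntermediateField.fixingSubgroup_antitone le_sup_right hu'''
  have g1 : α u = 1 := MonoidHom.mem_ker.1 (h1 hu1)
  have g2 : χ u = 1 := MonoidHom.mem_ker.1 (h2 hu2)
  have g3 : χ' u = 1 := MonoidHom.mem_ker.1 (h3 hu3)
  have g4 : m u = 0 := by
    have h6 := h4 1 u hu4
    rwa [one_mul, hm1] at h6
  have g5 : φ u = 1 := MonoidHom.mem_ker.1 (h5 hu5)
  rw [MonoidHom.mem_ker, kpa_r, g1, g2, g3, g4, g5, map_one, sub_zero]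
  rfl

variable [IsAlgClosure K Ω]

/-- the inertia groups of the typed primes are mapped to `ker ph` -/
theorem ph_inr (hp : p.Prime) (hζ : IsPrimitiveRoot ζ p) [Finite G] (Q : HQ p N G H)
    {D : RD0 K p ζ} (L : LDs D Ω) (φ : Gal(Ω/K) →* G) (hφ : H38.ML.FT φ) {v : Pl K}
    (hv : v ∉ D.S0) (h : (∀ τ ∈ inr L v, φ τ = 1) ∨ ∃ i, TyC Q.cl L φ i v) :
    ∀ τ ∈ inr L v, Q.ph (φ τ) = 1 := by
  intro τ hτ
  rcases h with h | ⟨i, -, hc, hpw⟩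
  · rw [h τ hτ, map_one]
  · have h1 := (ing_inr hp hζ L hv φ hφ (fun τ hτ => ⟨1, by rw [pow_one]; exact hpw τ hτ⟩)).1 τ hτ
    obtain ⟨k, hk⟩ := Subgroup.mem_zpowers_iff.1 h1
    have h2 : Q.ph (φ (L.t v)) = 1 := by
      have h3 := MonoidHom.map_isConj Q.ph hc
      rw [hq_cl Q i] at h3
      exact isConj_one_left.1 h3
    rw [← hk, map_zpow, h2, one_zpow]

theorem kpa_pq (hp : p.Prime) (hζ : IsPrimitiveRoot ζ p) [Finite G] (Q : HU p N G P H)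
    (Z : HZ p G P N₁)
    (h1 : ∀ g, (Z.E g).r.1 = Q.pr g) (h2 : ∀ t, Q.ph t = 1 → (Z.E t).r.2 = 1)
    (h3 : ∀ t, Q.ph t = 1 → Z.E t = 1 → t = 1) {D : RD0 K p ζ} (L : LDs D Ω)
    (α : Gal(Ω/K) →* P) (β : Gal(Ω/K) → N₁)
    (χ χ' : Gal(Ω/K) →* Multiplicative (ZMod p))
    (m : Gal(Ω/K) → ZMod p) (hm : ∀ σ τ, m (σ * τ) = m σ + m τ + (sm Z.eP Z.eN (α σ, β σ)
      (α τ, β τ) + Multiplicative.toAdd (χ σ) * Multiplicative.toAdd (χ' τ)))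
    (φ : Gal(Ω/K) →* G) (hφ : ∀ σ, (Z.E (φ σ)).r.2 = β σ) (hα : H38.ML.FT α)
    (hχ : H38.ML.FT χ) (hχ' : H38.ML.FT χ') (hl : Lev m) (E E' : Finset (Pl K)) (hE : E ⊆ E')
    (hur : ∀ v, v ∉ D.S0 → v ∉ E' → ∀ τ ∈ inr L v, α τ = 1 ∧ χ τ = 1 ∧ χ' τ = 1 ∧ m τ = 0)
    (Y : ℝ) (hPU : φ ∈ PU L Q.cl E Y) :
    kpa Z α β χ χ' m hm φ hφ ∈ PQ L (ck Q Z h1 h2 h3) (kq Z.hP) E' Y := by
  obtain ⟨hft, hsur, hty, hY⟩ := hPU
  have hkj : ∀ v, v ∉ D.S0 → v ∉ E' → ∀ τ ∈ inr L v, kpa Z α β χ χ' m hm φ hφ τ =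
      jj Z.hP (Z.E (φ τ)).r.1 (Z.E (φ τ)).z := by
    intro v hv hvE τ hτ
    obtain ⟨g1, g2, g3, g4⟩ := hur v hv hvE τ hτ
    rw [kpa_r, g1, g2, g3, g4, sub_zero]
    rfl
  have hun : ∀ v, v ∉ D.S0 → v ∉ E' → ∀ τ ∈ inr L v, φ τ = 1 →
      kpa Z α β χ χ' m hm φ hφ τ = 1 := by
    intro v hv hvE τ hτ hf
    rw [hkj v hv hvE τ hτ, hf, map_one]
    rfl
  refine ⟨kpa_ft Z α β χ χ' m hm φ hφ hα hχ hχ' hl hft, ?_, ?_, ?_⟩
  · intro x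
    obtain ⟨g, rfl⟩ := Q.prs x
    obtain ⟨σ, rfl⟩ := hsur g
    exact ⟨σ, h1 _⟩
  · intro v hv hvE
    have hvE0 : v ∉ E := fun h => hvE (hE h)
    rcases hty v hv hvE0 with h | ⟨i, hi⟩
    · exact Or.inl fun τ hτ => hun v hv hvE τ hτ (h τ hτ)
    · refine Or.inr ⟨i, hi.1, ?_, ?_⟩
      · have ht : L.t v ∈ inr L v := lt_mem2 L hv
        rw [hkj v hv hvE _ ht]
        exact kh_conj Q Z h1 h2 h3 _ i hi.2.1
      · intro τ hτ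
        rw [hkj v hv hvE τ hτ]
        exact jj_pow Q Z h1 h2 _ (ph_inr hp hζ Q.toHQ L φ hft hv (Or.inr ⟨i, hi⟩) τ hτ) p
          (hi.2.2 τ hτ)
  · intro T hT
    refine hY T fun v hv => ?_
    obtain ⟨g1, g2, g3⟩ := hT v hv
    refine ⟨g1, fun h => g2 (hE h), fun h => g3 fun τ hτ => hun v g1 g2 τ hτ (h τ hτ)⟩

end loc

end H96.HT2
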